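import Pool.Agent.H330.A14.Final
import Pool.Agent.H330.A14.BLOCK
import Pool.Agent.H330.A14.TRANS
import Pool.Agent.H330.A14.GRAPH
import Pool.Agent.H330.A14.TWO
import Pool.Agent.H330.A14.JCYC
import Pool.Agent.H330.A14.SYL
import Pool.Agent.H330.A14.FIVE
import Pool.Agent.H330.A14.ELEVEN
import Pool.Agent.H330.A14.EVEN
import Pool.Agent.H330.A14.FOUR
import Pool.Agent.H330.A14.THIRTEEN
import Pool.Agent.H330.A14.SEVEN
import Pool.Agent.H330.A14.STRA
import Pool.Agent.H330.A14.STRB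
import Pool.Agent.H330.A14.CONJ
import Pool.Agent.H330.A14.CHECK1
import Pool.Agent.H330.A14.CHECK2
import Pool.Agent.H330.A14.BASE

/-!
# The uniform domination number of `A_14`

`γ_u(A_14) ≤ 4 < 5 ≤ b(A_14, 5-subsets)`: the equality asked for in Q1 fails for `n = 14`.
-/

namespace Pool.Agent.Results.MP_6f5538_al.Degree14

open Pool.Agent.H330.A14

theorem result :
    (gammaU (alternatingGroup (Fin 14)) ≤ 4 ∧ 5 ≤ baseSize 14 5) ∧
    ¬ ∀ m k : ℕ, 4 ≤ m → IsGreatest {j | Odd j ∧ j < m} k →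
      gammaU (alternatingGroup (Fin (2 * m))) = baseSize (2 * m) k := by
  refine final (gamma_le (dominate ?_ h_CHECK1 h_CHECK2)) (base_ge h_BASE)
  exact tri h_TRANS (h_TWO (h_GRAPH h_BLOCK)) (h_FIVE h_JCYC) (h_ELEVEN h_JCYC) (h_SYL h_JCYC)
    (h_EVEN h_JCYC) h_FOUR h_THIRTEEN h_SEVEN h_STRA h_STRB h_CONJ

end Pool.Agent.Results.MP_6f5538_al.Degree14
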